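import Mathlib

set_option autoImplicit false

namespace Pool.Agent.H560_CF

/-- The Gauss map. -/
noncomputable def T (y : ℝ) : ℝ := Int.fract (1 / y)

/-- The value of a finite continued fraction with the tail `y`. -/
noncomputable def cf : List ℕ → ℝ → ℝ
  | [], y => y
  | a :: l, y => 1 / ((a : ℝ) + cf l y)

lemma cf_append (l s : List ℕ) (y : ℝ) : cf (l ++ s) y = cf l (cf s y) := by
  induction l with
  | nil => rfl
  | cons a l ih => simp [cf, ih]

lemma cf_mem_Icc {l : List ℕ} (hl : ∀ a ∈ l, 1 ≤ a) {y : ℝ} (hy : y ∈ Set.Icc (0 : ℝ) 1) :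
    cf l y ∈ Set.Icc (0 : ℝ) 1 := by
  induction l with
  | nil => exact hy
  | cons a l ih =>
    have h1 := ih (fun b hb => hl b (List.mem_cons_of_mem _ hb))
    have ha : (1 : ℝ) ≤ a := by exact_mod_cast hl a List.mem_cons_self
    obtain ⟨h2, h3⟩ := h1
    refine ⟨?_, ?_⟩
    · simp only [cf]; positivity
    · simp only [cf]
      rw [div_le_one (by linarith)]
      linarith

lemma cf_mem_Ioo {l : List ℕ} (hl : ∀ a ∈ l, 1 ≤ a) {y : ℝ} (hy : y ∈ Set.Ioo (0 : ℝ) 1) :
    cf l y ∈ Set.Ioo (0 : ℝ) 1 := by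
  induction l with
  | nil => exact hy
  | cons a l ih =>
    have h1 := ih (fun b hb => hl b (List.mem_cons_of_mem _ hb))
    have ha : (1 : ℝ) ≤ a := by exact_mod_cast hl a List.mem_cons_self
    obtain ⟨h2, h3⟩ := h1
    refine ⟨?_, ?_⟩
    · simp only [cf]; positivity
    · simp only [cf]
      rw [div_lt_one (by linarith)]
      linarith

lemma cf_mem_Ioo' {l : List ℕ} (hne : l ≠ []) (hl : ∀ a ∈ l, 2 ≤ a) {y : ℝ}
    (hy : y ∈ Set.Icc (0 : ℝ) 1) : cf l y ∈ Set.Ioo (0 : ℝ) 1 := by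
  cases l with
  | nil => exact absurd rfl hne
  | cons a l =>
    have h1 : cf l y ∈ Set.Icc (0 : ℝ) 1 := cf_mem_Icc
      (fun b hb => le_trans (by norm_num) (hl b (List.mem_cons_of_mem _ hb))) hy
    have ha : (2 : ℝ) ≤ a := by exact_mod_cast hl a List.mem_cons_self
    obtain ⟨h2, h3⟩ := h1
    refine ⟨?_, ?_⟩
    · simp only [cf]; positivity
    · simp only [cf]
      rw [div_lt_one (by linarith)]
      linarith

lemma T_cons (a : ℕ) {w : ℝ} (hw : w ∈ Set.Ico (0 : ℝ) 1) : T (1 / ((a : ℝ) + w)) = w := by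
  unfold T
  rw [one_div_one_div, Int.fract_natCast_add, Int.fract_eq_self.mpr hw]

lemma T_iter_cf {l : List ℕ} (hl : ∀ a ∈ l, 1 ≤ a) {y : ℝ} (hy : y ∈ Set.Ioo (0 : ℝ) 1) :
    T^[l.length] (cf l y) = y := by
  induction l with
  | nil => rfl
  | cons a l ih =>
    have hl' : ∀ b ∈ l, 1 ≤ b := fun b hb => hl b (List.mem_cons_of_mem _ hb)
    have h1 := cf_mem_Ioo hl' hy
    rw [List.length_cons, Function.iterate_succ_apply]
    simp only [cf]
    rw [T_cons a ⟨h1.1.le, h1.2⟩]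
    exact ih hl'

/-- digits of the block `s` -/
lemma digit_ge (M : ℕ) : ∀ (s : List ℕ) (_ : ∀ a ∈ s, 2 ≤ a) (_ : ∀ a ∈ s, M ≤ a) (z : ℝ)
    (_ : z ∈ Set.Icc (0 : ℝ) 1) (i : ℕ) (_ : i < s.length),
    (M : ℤ) ≤ ⌊1 / (T^[i] (cf s z))⌋ := by
  intro s
  induction s with
  | nil => intro _ _ z _ i hi; simp at hi
  | cons a s ih =>
    intro h2 hM z hz i hi
    have h2' : ∀ b ∈ s, 2 ≤ b := fun b hb => h2 b (List.mem_cons_of_mem _ hb)
    have hM' : ∀ b ∈ s, M ≤ b := fun b hb => hM b (List.mem_cons_of_mem _ hb)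
    have h1' : ∀ b ∈ s, 1 ≤ b := fun b hb => le_trans (by norm_num) (h2' b hb)
    cases i with
    | zero =>
      simp only [Function.iterate_zero, id]
      simp only [cf]
      rw [one_div_one_div, Int.le_floor]
      have h3 := (cf_mem_Icc h1' hz).1
      have h4 : (M : ℝ) ≤ a := by exact_mod_cast hM a List.mem_cons_self
      push_cast
      linarith
    | succ i =>
      rw [List.length_cons] at hi
      have hi' : i < s.length := by omega
      have hne : s ≠ [] := by
        rintro rfl; simp at hi'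
      have h3 := cf_mem_Ioo' hne h2' hz
      rw [Function.iterate_succ_apply]
      simp only [cf]
      rw [T_cons a ⟨h3.1.le, h3.2⟩]
      exact ih h2' hM' z hz i hi'

/-- `cf l` is the Moebius map with the entries `p p' q q'`. -/
structure IsMat (l : List ℕ) (σ : ℝ) (p p' q q' : ℕ) : Prop where
  form : ∀ y : ℝ, 0 ≤ y → cf l y = ((p : ℝ) + p' * y) / ((q : ℝ) + q' * y)
  det : (p' : ℝ) * q - p * q' = σ
  q_pos : 1 ≤ q
  q'_le : q' ≤ q
  dig : ∀ a ∈ l, 1 ≤ a

lemma isMat_nil : IsMat [] 1 0 1 1 0 where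
  form := by intro y hy; simp [cf]
  det := by norm_num
  q_pos := le_refl _
  q'_le := by norm_num
  dig := by simp

lemma IsMat.snoc {l : List ℕ} {σ : ℝ} {p p' q q' : ℕ} (h : IsMat l σ p p' q q') {b : ℕ}
    (hb : 1 ≤ b) : IsMat (l ++ [b]) (-σ) (p * b + p') p (q * b + q') q where
  form := by
    intro y hy
    have hb' : (1 : ℝ) ≤ b := by exact_mod_cast hb
    have hq : (1 : ℝ) ≤ q := by exact_mod_cast h.q_pos
    have hq' : (0 : ℝ) ≤ q' := by positivity
    have hby : (0 : ℝ) < b + y := by linarith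
    rw [cf_append]
    simp only [cf]
    rw [h.form _ (by positivity)]
    have h1 : (0 : ℝ) < (q : ℝ) + q' * (1 / (b + y)) := by positivity
    have h2 : (0 : ℝ) < ((q * b + q' : ℕ) : ℝ) + (q : ℝ) * y := by
      push_cast
      positivity
    rw [div_eq_div_iff h1.ne' h2.ne']
    push_cast
    field_simp
    ring
  det := by
    push_cast
    linear_combination -h.det
  q_pos := by nlinarith [h.q_pos]
  q'_le := by nlinarith [h.q_pos]
  dig := by
    intro a ha
    rw [List.mem_append, List.mem_singleton] at ha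
    rcases ha with ha | ha
    · exact h.dig a ha
    · exact ha ▸ hb

lemma IsMat.cf_zero {l : List ℕ} {σ : ℝ} {p p' q q' : ℕ} (h : IsMat l σ p p' q q') :
    cf l 0 = (p : ℝ) / q := by
  rw [h.form 0 le_rfl]; simp

/-- difference from the convergent -/
lemma IsMat.cf_sub {l : List ℕ} {σ : ℝ} {p p' q q' : ℕ} (h : IsMat l σ p p' q q') {y : ℝ}
    (hy : 0 ≤ y) : cf l y - (p : ℝ) / q = σ * (y / (q * (q + q' * y))) := by
  have hq : (1 : ℝ) ≤ q := by exact_mod_cast h.q_pos
  have hq' : (0 : ℝ) ≤ q' := by positivity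
  have hq0 : (0 : ℝ) < q := by linarith
  have h2 : (0 : ℝ) < (q : ℝ) + q' * y := by positivity
  rw [h.form y hy, ← h.det]
  field_simp
  ring

end Pool.Agent.H560_CF
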