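import Mathlib

set_option autoImplicit false

namespace Pool.Agent.H560_CF

lemma ineq_a {q Q S ε r S1 ε2 : ℝ} (hQ0 : 0 < Q) (hq0 : 0 < q) (hr : 20 ≤ r) (hrq : r * Q ≤ q)
    (hSqQ : q ^ 2 ≤ S * Q ^ 2) (hε1 : ε < 1) (hSe : 0 < S - ε) (hS1 : r / 4 - 1 ≤ S1 - ε2) :
    (r + 1) * q ≤ Q * (S - ε) * (S1 - ε2) := by
  have h2 : q * (r - 1) ≤ Q * (S - ε) := by
    have h3 : q * (r - 1) * Q ≤ Q * (S - ε) * Q := by
      have h4 : r * Q * q ≤ q * q := mul_le_mul_of_nonneg_right hrq hq0.le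
      have h5 : Q ≤ q := by
        have : Q * 1 ≤ r * Q := by nlinarith
        linarith
      have h6 : ε * (Q * Q) ≤ 1 * (Q * Q) := mul_le_mul_of_nonneg_right hε1.le (by positivity)
      have h7 : Q * Q ≤ q * Q := mul_le_mul_of_nonneg_right h5 hQ0.le
      have e1 : q * (r - 1) * Q = r * Q * q - q * Q := by ring
      have e2 : Q * (S - ε) * Q = S * Q ^ 2 - ε * (Q * Q) := by ring
      rw [e1, e2]
      have e3 : q ^ 2 = q * q := by ring
      linarith
    exact le_of_mul_le_mul_right h3 hQ0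
  have h5 : (r + 1) * q ≤ (q * (r - 1)) * (r / 4 - 1) := by
    have : (r + 1) ≤ (r - 1) * (r / 4 - 1) := by nlinarith
    calc (r + 1) * q ≤ ((r - 1) * (r / 4 - 1)) * q := mul_le_mul_of_nonneg_right this hq0.le
      _ = _ := by ring
  calc (r + 1) * q ≤ (q * (r - 1)) * (r / 4 - 1) := h5
    _ ≤ (Q * (S - ε)) * (S1 - ε2) :=
      mul_le_mul h2 hS1 (by linarith) (by positivity)

lemma ineq_b {q Q S c r S1 ε2 : ℝ} (hQ0 : 0 < Q) (hq0 : 0 < q) (hr : 20 ≤ r) (hrq : r * Q ≤ q)
    (hSqQ : q ^ 2 ≤ S * Q ^ 2) (hc0 : 0 < c) (hc1 : c ≤ 1 - 4 / r) (hS0 : 0 < S)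
    (hε21 : ε2 < 1) (hS1c : S1 * (c * q ^ 2) = Q ^ 2 * S * (S + c)) :
    (r + 1) * (Q * (S + c)) ≤ q * (S1 - ε2) := by
  have hr0 : 0 < r := by linarith
  have hSc : 0 < S + c := by linarith
  have hcq : 0 < c * q := by positivity
  have hcr : c * (r + 4) ≤ r := by
    have h6 : c * (r + 4) ≤ (1 - 4 / r) * (r + 4) :=
      mul_le_mul_of_nonneg_right hc1 (by linarith)
    have h7 : (1 - 4 / r) * (r + 4) = r - 16 / r := by field_simp; ring
    have h8 : 0 < 16 / r := by positivity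
    linarith
  have h9 : (r + 4) * c * q ≤ Q * S := by
    have h10 : (r + 4) * c * q * Q ≤ Q * S * Q := by
      have h1 : c * (r + 4) * (q * Q) ≤ r * (q * Q) :=
        mul_le_mul_of_nonneg_right hcr (by positivity)
      have h2 : r * Q * q ≤ q * q := mul_le_mul_of_nonneg_right hrq hq0.le
      have e1 : (r + 4) * c * q * Q = c * (r + 4) * (q * Q) := by ring
      have e2 : Q * S * Q = S * Q ^ 2 := by ring
      have e3 : r * (q * Q) = r * Q * q := by ring
      have e4 : q ^ 2 = q * q := by ring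
      rw [e1, e2]
      linarith
    exact le_of_mul_le_mul_right h10 hQ0
  have h11 : 0 < Q * (S + c) := by positivity
  have hkey2 : (r + 4) * (Q * (S + c)) ≤ S1 * q := by
    have : (r + 4) * (Q * (S + c)) * (c * q) ≤ (S1 * q) * (c * q) := by
      have e1 : (r + 4) * (Q * (S + c)) * (c * q) = ((r + 4) * c * q) * (Q * (S + c)) := by ring
      have e2 : (S1 * q) * (c * q) = (Q * S) * (Q * (S + c)) := by
        calc (S1 * q) * (c * q) = S1 * (c * q ^ 2) := by ring
          _ = Q ^ 2 * S * (S + c) := hS1c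
          _ = _ := by ring
      rw [e1, e2]
      exact mul_le_mul_of_nonneg_right h9 h11.le
    exact le_of_mul_le_mul_right this hcq
  have hqQ : q ≤ Q * (S + c) := by
    have : q * q ≤ (Q * (S + c)) * q := by
      have h12 : Q ≤ q := by nlinarith
      have h13 : S * Q ^ 2 ≤ (Q * S) * q := by
        have := mul_le_mul_of_nonneg_left h12 (by positivity : 0 ≤ Q * S)
        calc S * Q ^ 2 = Q * S * Q := by ring
          _ ≤ _ := this
      have h14 : 0 < Q * c * q := by positivity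
      have e1 : (Q * (S + c)) * q = (Q * S) * q + Q * c * q := by ring
      have e4 : q ^ 2 = q * q := by ring
      rw [e1]; linarith
    exact le_of_mul_le_mul_right this hq0
  have h15 : q * ε2 ≤ q * 1 := mul_le_mul_of_nonneg_left hε21.le hq0.le
  have e5 : q * (S1 - ε2) = S1 * q - q * ε2 := by ring
  have e6 : (r + 1) * (Q * (S + c)) = (r + 4) * (Q * (S + c)) - 3 * (Q * (S + c)) := by ring
  rw [e5, e6]
  linarith

lemma ineq_c {ε2 S1 : ℝ} (h0 : 0 < ε2) (h1 : ε2 < 1) (hS : 1 < S1) :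
    ε2 * (S1 - ε2) / S1 < 1 := by
  rw [div_lt_one (by linarith)]
  have : ε2 * (S1 - ε2) ≤ 1 * (S1 - ε2) := mul_le_mul_of_nonneg_right h1.le (by linarith)
  linarith

end Pool.Agent.H560_CF
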