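import Pool.Agent.H560_CF.Limit

set_option autoImplicit false

namespace Pool.Agent.H560_CF

/-- the target property for one number -/
def InG (g : ℝ) : Prop := g ∈ Set.Ioo (0 : ℝ) 1 ∧
    Filter.Tendsto (fun n : ℕ => ⌊1 / (T^[n] g)⌋) Filter.atTop Filter.atTop

lemma init_list {x : ℝ} (hx : Irrational x) (hx01 : x ∈ Set.Ioo (0 : ℝ) 1) (n : ℕ) :
    ∃ (l : List ℕ) (p p' q q' : ℕ), IsMat l ((-1) ^ n) p p' q q' ∧ n ≤ q ∧ (1 ≤ n → 1 ≤ q') ∧
      ∃ y ∈ Set.Ioo (0 : ℝ) 1, Irrational y ∧ x = cf l y := by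
  induction n with
  | zero => exact ⟨[], 0, 1, 1, 0, by simpa using isMat_nil, by norm_num, by omega, x, hx01, hx, rfl⟩
  | succ n ih =>
    obtain ⟨l, p, p', q, q', hm, hnq, hq', y, hy, hyirr, hxy⟩ := ih
    have hy0 : 0 < y := hy.1
    have h1y : 1 < 1 / y := by rw [lt_div_iff₀ hy0]; linarith [hy.2]
    obtain ⟨b, hb⟩ : ∃ b : ℕ, b = ⌊1 / y⌋₊ := ⟨_, rfl⟩
    have hb1 : 1 ≤ b := by
      rw [hb]
      exact Nat.le_floor (by push_cast; linarith)
    have hb2 : (b : ℝ) ≤ 1 / y := by rw [hb]; exact Nat.floor_le (by linarith)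
    have hb3 : 1 / y < b + 1 := by rw [hb]; exact Nat.lt_floor_add_one _
    have hirr : Irrational (1 / y - b) := by
      have h1 : Irrational (1 / y) := by rw [one_div]; exact hyirr.inv
      exact h1.sub_natCast b
    have hpos : 0 < 1 / y - b := by
      rcases lt_or_eq_of_le (sub_nonneg.mpr hb2) with h | h
      · exact h
      · exact absurd h.symm (by
          intro h0
          exact hirr.ne_zero h0)
    refine ⟨l ++ [b], p * b + p', p, q * b + q', q, ?_, ?_, ?_, 1 / y - b, ⟨hpos, by linarith⟩,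
      hirr, ?_⟩
    · have := hm.snoc hb1
      rw [pow_succ]
      simpa using this
    · rcases Nat.eq_zero_or_pos n with h0 | h0
      · have := hm.q_pos
        nlinarith
      · have h5 := hq' h0
        have h6 : q * 1 ≤ q * b := Nat.mul_le_mul_left q hb1
        omega
    · intro _
      exact hm.q_pos
    · rw [cf_append, hxy]
      congr 1
      simp only [cf]
      rw [add_sub_cancel, one_div_one_div]

lemma init_good {x : ℝ} (hx : Irrational x) (hx01 : x ∈ Set.Ioo (0 : ℝ) 1) :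
    ∃ l, Good x 20 l [] := by
  obtain ⟨l, p, p', q, q', hm, hnq, hq', y, hy, hyirr, hxy⟩ := init_list hx hx01 20
  have h1 : ((-1 : ℝ)) ^ 20 = 1 := by norm_num
  rw [h1] at hm
  have hy0 := hy.1
  have hq : (20 : ℝ) ≤ q := by exact_mod_cast hnq
  have hq0 : (0 : ℝ) < q := by linarith
  have hq'0 : (0 : ℝ) ≤ q' := by positivity
  have hsub := hm.cf_sub (y := y) hy0.le
  refine ⟨l, 1, p, p', q, q', 0, 1, 1, 0, y / (q * (q + q' * y)), hm, isMat_nil, ?_, ?_, ?_, ?_⟩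
  · rw [← hxy] at hsub
    simp only [Nat.cast_zero, Nat.cast_one]
    linarith
  · positivity
  · have h2 : y / ((q : ℝ) * (q + q' * y)) * (q : ℝ) ^ 2 = y * q / (q + q' * y) := by
      field_simp
    rw [h2, div_lt_one (by positivity)]
    have h3 : y * q < 1 * q := mul_lt_mul_of_pos_right hy.2 hq0
    have h4 : 0 ≤ (q' : ℝ) * y := by positivity
    linarith
  · simpa using hq

theorem irr_case {x : ℝ} (hx : Irrational x) (hx01 : x ∈ Set.Ioo (0 : ℝ) 1) :
    ∃ g₁ g₂ : ℝ, InG g₁ ∧ InG g₂ ∧ x = g₁ + g₂ := by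
  obtain ⟨l0, h0⟩ := init_good hx hx01
  -- the state space
  let St := {p : List ℕ × List ℕ × ℕ // Inv x (20 + (p.2.2 : ℝ)) p.1 p.2.1}
  have hstep : ∀ S : St, ∃ S' : St, ∃ s t : List ℕ, s ≠ [] ∧ t ≠ [] ∧
      (∀ a ∈ s, (20 + (S.1.2.2 : ℝ)) / 4 - 2 ≤ (a : ℝ)) ∧
      (∀ a ∈ t, (20 + (S.1.2.2 : ℝ)) / 4 - 2 ≤ (a : ℝ)) ∧
      S'.1.1 = S.1.1 ++ s ∧ S'.1.2.1 = S.1.2.1 ++ t ∧ S'.1.2.2 = S.1.2.2 + 1 := by
    rintro ⟨⟨l, k, n⟩, hS⟩
    obtain ⟨s, t, hs, ht, hs1, ht1, h⟩ := double_step hx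
      (by have : (0 : ℝ) ≤ (n : ℝ) := by positivity
          simp only
          linarith) hS
    refine ⟨⟨⟨l ++ s, k ++ t, n + 1⟩, ?_⟩, s, t, hs, ht, hs1, ht1, rfl, rfl, rfl⟩
    simp only
    push_cast
    rw [← add_assoc]
    exact h
  choose nxt s t hs ht hsd htd hl hk hn using hstep
  have h0' : Inv x (20 + ((0 : ℕ) : ℝ)) l0 [] := Or.inl (by simpa using h0)
  let S0 : St := ⟨⟨l0, [], 0⟩, h0'⟩
  let S : ℕ → St := fun n => nxt^[n] S0
  have hSs : ∀ n, S (n + 1) = nxt (S n) := fun n => Function.iterate_succ_apply' nxt n S0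
  have hSn : ∀ n, (S n).1.2.2 = n := by
    intro n
    induction n with
    | zero => rfl
    | succ n ih => rw [hSs, hn, ih]
  -- the two sequences of cylinders
  let l : ℕ → List ℕ := fun n => (S n).1.1
  let k : ℕ → List ℕ := fun n => (S n).1.2.1
  have hll : ∀ n, l (n + 1) = l n ++ s (S n) := by
    intro n
    show (S (n + 1)).1.1 = _
    rw [hSs, hl]
  have hkk : ∀ n, k (n + 1) = k n ++ t (S n) := by
    intro n
    show (S (n + 1)).1.2.1 = _
    rw [hSs, hk]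
  have hdig : ∀ n, (∀ a ∈ l n, 1 ≤ a) ∧ (∀ a ∈ k n, 1 ≤ a) := by
    intro n
    rcases (S n).2 with h | h
    · exact h.dig
    · exact ⟨h.dig.2, h.dig.1⟩
  have hmem : ∀ n, ∃ u ∈ Set.Icc (0 : ℝ) 1, ∃ v ∈ Set.Icc (0 : ℝ) 1,
      x = cf (l n) u + cf (k n) v := by
    intro n
    have h20 : (20 : ℝ) ≤ 20 + ((S n).1.2.2 : ℝ) := by
      have : (0 : ℝ) ≤ ((S n).1.2.2 : ℝ) := by positivity
      linarith
    rcases (S n).2 with h | h
    · exact h.mem h20
    · obtain ⟨u, hu, v, hv, h⟩ := h.mem h20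
      exact ⟨v, hv, u, hu, by rw [h]; ring⟩
  -- digit bound
  have hbd : ∀ n (a : ℕ), (20 + ((S n).1.2.2 : ℝ)) / 4 - 2 ≤ (a : ℝ) → n / 4 + 3 ≤ a := by
    intro n a h
    rw [hSn] at h
    have h1 : ((n / 4 : ℕ) : ℝ) ≤ (n : ℝ) / 4 := Nat.cast_div_le
    have h2 : ((n / 4 + 3 : ℕ) : ℝ) ≤ a := by
      push_cast
      linarith
    exact_mod_cast h2
  have hM : Filter.Tendsto (fun n : ℕ => n / 4 + 3) Filter.atTop Filter.atTop := by
    apply Filter.tendsto_atTop_mono (f := fun n => n / 4) (fun n => by omega)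
    exact Nat.tendsto_div_const_atTop (by norm_num)
  -- compactness
  let C : ℕ → Set ℝ := fun n => {u | u ∈ cf (l n) '' Set.Icc (0 : ℝ) 1 ∧
    x - u ∈ cf (k n) '' Set.Icc (0 : ℝ) 1}
  have hcl : ∀ n, IsClosed (C n) := by
    intro n
    have h1 := (cyl_compact (hdig n).1).isClosed
    have h2 := (cyl_compact (hdig n).2).isClosed
    exact h1.inter (h2.preimage (continuous_const.sub continuous_id))
  have hsub : ∀ n, C (n + 1) ⊆ C n := by
    rintro n u ⟨⟨a, ha, h1⟩, ⟨b, hb, h2⟩⟩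
    have hs1 : ∀ a ∈ s (S n), 1 ≤ a := fun a ha => by
      have := hbd n a (hsd (S n) a ha)
      omega
    have ht1 : ∀ a ∈ t (S n), 1 ≤ a := fun a ha => by
      have := hbd n a (htd (S n) a ha)
      omega
    refine ⟨⟨cf (s (S n)) a, cf_mem_Icc hs1 ha, ?_⟩, ⟨cf (t (S n)) b, cf_mem_Icc ht1 hb, ?_⟩⟩
    · rw [← cf_append, ← hll, h1]
    · rw [← cf_append, ← hkk, h2]
  have hne : ∀ n, (C n).Nonempty := by
    intro n
    obtain ⟨u, hu, v, hv, h⟩ := hmem n
    refine ⟨cf (l n) u, ⟨u, hu, rfl⟩, ⟨v, hv, ?_⟩⟩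
    rw [h]; ring
  have hcomp : IsCompact (C 0) :=
    (cyl_compact (hdig 0).1).of_isClosed_subset (hcl 0) (fun u hu => hu.1)
  obtain ⟨g, hg⟩ := IsCompact.nonempty_iInter_of_sequence_nonempty_isCompact_isClosed C hsub hne
    hcomp hcl
  rw [Set.mem_iInter] at hg
  refine ⟨g, x - g, ?_, ?_, by ring⟩
  · exact limit_digits hll (fun n => hs _) (fun n => (hdig n).1)
      (fun n a ha => by have := hbd n a (hsd (S n) a ha); omega) hM
      (fun n a ha => hbd n a (hsd (S n) a ha)) (fun n => (hg n).1)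
  · exact limit_digits hkk (fun n => ht _) (fun n => (hdig n).2)
      (fun n a ha => by have := hbd n a (htd (S n) a ha); omega) hM
      (fun n a ha => hbd n a (htd (S n) a ha)) (fun n => (hg n).2)

end Pool.Agent.H560_CF
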