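import Pool.Agent.H560_CF.Step

set_option autoImplicit false

namespace Pool.Agent.H560_CF

lemma cf_continuousOn {l : List ℕ} (hl : ∀ a ∈ l, 1 ≤ a) :
    ContinuousOn (cf l) (Set.Icc (0 : ℝ) 1) := by
  induction l with
  | nil => exact continuousOn_id
  | cons a l ih =>
    have hl' : ∀ b ∈ l, 1 ≤ b := fun b hb => hl b (List.mem_cons_of_mem _ hb)
    have ha : (1 : ℝ) ≤ a := by exact_mod_cast hl a List.mem_cons_self
    have h1 := ih hl'
    have h2 : ContinuousOn (fun y => 1 / ((a : ℝ) + cf l y)) (Set.Icc (0 : ℝ) 1) := by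
      apply ContinuousOn.div continuousOn_const (continuousOn_const.add h1)
      intro y hy
      have := (cf_mem_Icc hl' hy).1
      have : (0 : ℝ) < a + cf l y := by linarith
      exact this.ne'
    exact h2

lemma cyl_compact {l : List ℕ} (hl : ∀ a ∈ l, 1 ≤ a) :
    IsCompact (cf l '' Set.Icc (0 : ℝ) 1) :=
  isCompact_Icc.image_of_continuousOn (cf_continuousOn hl)

lemma Good.mono {x r r' : ℝ} {l k : List ℕ} (h : Good x r' l k) (hr : r ≤ r') : Good x r l k := by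
  obtain ⟨σ, p, p', q, q', P, P', Q, Q', δ, hl, hk, hxe, hδ, hδq, hrq⟩ := h
  refine ⟨σ, p, p', q, q', P, P', Q, Q', δ, hl, hk, hxe, hδ, hδq, ?_⟩
  have : r * (Q : ℝ) ≤ r' * Q := mul_le_mul_of_nonneg_right hr (by positivity)
  linarith

lemma Good.dig {x r : ℝ} {l k : List ℕ} (h : Good x r l k) :
    (∀ a ∈ l, 1 ≤ a) ∧ (∀ a ∈ k, 1 ≤ a) := by
  obtain ⟨σ, p, p', q, q', P, P', Q, Q', δ, hl, hk, -⟩ := h
  exact ⟨hl.dig, hk.dig⟩

lemma Good.mem {x r : ℝ} {l k : List ℕ} (hr : 20 ≤ r) (h : Good x r l k) :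
    ∃ u ∈ Set.Icc (0 : ℝ) 1, ∃ v ∈ Set.Icc (0 : ℝ) 1, x = cf l u + cf k v := by
  obtain ⟨σ, p, p', q, q', P, P', Q, Q', δ, hl, hk, hxe, hδ, hδq, hrq⟩ := h
  have hQ1 : (1 : ℝ) ≤ Q := by exact_mod_cast hk.q_pos
  have hQ0 : (0 : ℝ) < Q := by linarith
  have hq1 : (1 : ℝ) ≤ q := by exact_mod_cast hl.q_pos
  have hq0 : (0 : ℝ) < q := by linarith
  have hr0 : 0 < r := by linarith
  have hQ'0 : (0 : ℝ) ≤ Q' := by positivity
  have hQ'le : (Q' : ℝ) ≤ Q := by exact_mod_cast hk.q'_le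
  obtain ⟨S, hS⟩ : ∃ S : ℝ, S = 1 / (δ * (Q : ℝ) ^ 2) := ⟨_, rfl⟩
  have hS_lb : (q : ℝ) ^ 2 / (Q : ℝ) ^ 2 ≤ S := by
    rw [hS, div_le_div_iff₀ (by positivity) (by positivity)]
    have h1 := mul_le_mul_of_nonneg_right hδq.le (by positivity : (0 : ℝ) ≤ (Q : ℝ) ^ 2)
    calc (q : ℝ) ^ 2 * (δ * (Q : ℝ) ^ 2) = δ * (q : ℝ) ^ 2 * (Q : ℝ) ^ 2 := by ring
      _ ≤ 1 * (Q : ℝ) ^ 2 := h1
  have hrr : r ^ 2 ≤ (q : ℝ) ^ 2 / (Q : ℝ) ^ 2 := by
    rw [le_div_iff₀ (by positivity), ← mul_pow]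
    exact pow_le_pow_left₀ (by positivity) hrq 2
  have hS4 : 4 ≤ S := by nlinarith
  have hδS : δ = 1 / ((Q : ℝ) ^ 2 * S) := by
    rw [hS]; field_simp
  have hr1 : (Q' : ℝ) / Q ≤ 1 := by rw [div_le_one hQ0]; exact hQ'le
  obtain ⟨t, ht⟩ : ∃ t : ℝ, t = S - Q' / Q := ⟨_, rfl⟩
  have ht3 : 3 ≤ t := by linarith
  have ht0 : 0 < t := by linarith
  refine ⟨0, by simp, 1 / t, ⟨by positivity, by rw [div_le_one ht0]; linarith⟩, ?_⟩
  have h1 := hk.cf_sub (y := 1 / t) (by positivity)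
  have h2 : 1 / t / ((Q : ℝ) * (Q + Q' * (1 / t))) = δ := by
    have h3 : (Q : ℝ) * t + Q' = Q * S := by rw [ht]; field_simp; ring
    have h4 : (Q : ℝ) + Q' * (1 / t) = (Q * S) / t := by
      rw [← h3]; field_simp
    have hS0 : 0 < S := by linarith
    rw [h4, hδS]
    field_simp
  rw [h2] at h1
  rw [hl.cf_zero, hxe]
  linarith

/-- Either orientation of a good state. -/
def Inv (x r : ℝ) (l k : List ℕ) : Prop := Good x r l k ∨ Good x r k l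

lemma double_step_aux {x r : ℝ} (hx : Irrational x) (hr : 20 ≤ r) {l k : List ℕ}
    (h : Good x r l k) :
    ∃ s t : List ℕ, s ≠ [] ∧ t ≠ [] ∧ (∀ a ∈ s, r / 4 - 2 ≤ (a : ℝ)) ∧
      (∀ a ∈ t, r / 4 - 2 ≤ (a : ℝ)) ∧ Inv x (r + 1) (l ++ s) (k ++ t) := by
  obtain ⟨s, t, ht, hs1, ht1, h1⟩ := macro_step hx hr h
  rcases h1 with ⟨hs, h1⟩ | ⟨-, h1⟩
  · exact ⟨s, t, hs, ht, hs1, ht1, Or.inl h1⟩
  · obtain ⟨s', t', ht', hs1', ht1', h2⟩ := macro_step hx (by linarith) h1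
    refine ⟨t', t ++ s', ht', by simp [ht], ?_, ?_, ?_⟩
    · intro a ha
      have := ht1' a ha
      linarith
    · intro a ha
      rw [List.mem_append] at ha
      rcases ha with ha | ha
      · exact ht1 a ha
      · have := hs1' a ha
        linarith
    · rcases h2 with ⟨hs, h2⟩ | ⟨hs, h2⟩
      · rw [List.append_assoc] at h2
        exact Or.inr (h2.mono (by linarith))
      · rw [hs, List.append_nil]
        exact Or.inl (h2.mono (by linarith))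

lemma double_step {x r : ℝ} (hx : Irrational x) (hr : 20 ≤ r) {l k : List ℕ}
    (h : Inv x r l k) :
    ∃ s t : List ℕ, s ≠ [] ∧ t ≠ [] ∧ (∀ a ∈ s, r / 4 - 2 ≤ (a : ℝ)) ∧
      (∀ a ∈ t, r / 4 - 2 ≤ (a : ℝ)) ∧ Inv x (r + 1) (l ++ s) (k ++ t) := by
  rcases h with h | h
  · exact double_step_aux hx hr h
  · obtain ⟨s, t, hs, ht, hs1, ht1, h1⟩ := double_step_aux hx hr h
    exact ⟨t, s, ht, hs, ht1, hs1, h1.symm⟩

lemma exists_block {L : ℕ → ℕ} (hL : ∀ n, L n < L (n + 1)) (N m : ℕ) (hm : L N ≤ m) :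
    ∃ n, N ≤ n ∧ L n ≤ m ∧ m < L (n + 1) := by
  induction m, hm using Nat.le_induction with
  | base => exact ⟨N, le_rfl, le_rfl, hL N⟩
  | succ m hm ih =>
    obtain ⟨n, hn, h1, h2⟩ := ih
    by_cases h3 : m + 1 < L (n + 1)
    · exact ⟨n, hn, by omega, h3⟩
    · exact ⟨n + 1, by omega, by omega, by have := hL (n + 1); omega⟩

/-- Digits of a point in a nested intersection of cylinders tend to infinity. -/
lemma limit_digits {l s : ℕ → List ℕ} (hls : ∀ n, l (n + 1) = l n ++ s n)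
    (hs : ∀ n, s n ≠ []) (hl1 : ∀ n, ∀ a ∈ l n, 1 ≤ a) (hs2 : ∀ n, ∀ a ∈ s n, 2 ≤ a)
    {M : ℕ → ℕ} (hM : Filter.Tendsto M Filter.atTop Filter.atTop) (hsM : ∀ n, ∀ a ∈ s n, M n ≤ a)
    {g : ℝ} (hg : ∀ n, g ∈ cf (l n) '' Set.Icc (0 : ℝ) 1) :
    g ∈ Set.Ioo (0 : ℝ) 1 ∧
    Filter.Tendsto (fun n : ℕ => ⌊1 / (T^[n] g)⌋) Filter.atTop Filter.atTop := by
  have key : ∀ n, ∃ z ∈ Set.Icc (0 : ℝ) 1, g = cf (l n) (cf (s n) z) := by
    intro n
    obtain ⟨z, hz, h⟩ := hg (n + 1)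
    refine ⟨z, hz, ?_⟩
    rw [← h, hls, cf_append]
  constructor
  · obtain ⟨z, hz, h⟩ := key 0
    rw [h]
    exact cf_mem_Ioo (hl1 0) (cf_mem_Ioo' (hs 0) (hs2 0) hz)
  · rw [Filter.tendsto_atTop]
    intro b
    rw [Filter.tendsto_atTop] at hM
    obtain ⟨N, hN⟩ := Filter.eventually_atTop.mp (hM b.toNat)
    rw [Filter.eventually_atTop]
    refine ⟨(l N).length, fun m hm => ?_⟩
    have hL : ∀ n, (l n).length < (l (n + 1)).length := by
      intro n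
      rw [hls, List.length_append]
      have := List.length_pos_iff.mpr (hs n)
      omega
    obtain ⟨n, hn, h1, h2⟩ := exists_block (L := fun n => (l n).length) hL N m hm
    obtain ⟨z, hz, h⟩ := key n
    have hw := cf_mem_Ioo' (hs n) (hs2 n) hz
    rw [hls, List.length_append] at h2
    obtain ⟨i, rfl⟩ : ∃ i, m = i + (l n).length := ⟨m - (l n).length, by omega⟩
    rw [Function.iterate_add_apply, h, T_iter_cf (hl1 n) hw]
    have h3 := digit_ge (M n) (s n) (hs2 n) (hsM n) z hz i (by omega)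
    have h4 : b.toNat ≤ M n := hN n hn
    have h5 : b ≤ (b.toNat : ℤ) := Int.self_le_toNat b
    have h6 : (b.toNat : ℤ) ≤ (M n : ℤ) := by exact_mod_cast h4
    linarith

end Pool.Agent.H560_CF
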