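import Pool.Agent.H560_CF.Irr

set_option autoImplicit false

namespace Pool.Agent.H560_CF

lemma exists_tail_seq_fin (N : ℕ) : ∀ (d : ℕ → ℕ) (_ : ∀ n, 2 ≤ d n),
    ∃ y : ℕ → ℝ, (∀ i, y i ∈ Set.Icc (0 : ℝ) 1) ∧ ∀ i < N, y i * ((d i : ℝ) + y (i + 1)) = 1 := by
  induction N with
  | zero =>
    intro d _
    exact ⟨fun _ => 0, fun i => by simp, fun i hi => by omega⟩
  | succ N ih =>
    intro d hd
    obtain ⟨y, hy1, hy2⟩ := ih (fun n => d (n + 1)) (fun n => hd _)
    have h2 : (2 : ℝ) ≤ d 0 := by exact_mod_cast hd 0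
    have hpos : (0 : ℝ) < (d 0 : ℝ) + y 0 := by linarith [(hy1 0).1]
    refine ⟨fun i => Nat.casesOn i (1 / ((d 0 : ℝ) + y 0)) (fun j => y j), ?_, ?_⟩
    · intro i
      cases i with
      | zero =>
        refine ⟨(one_div_pos.mpr hpos).le, ?_⟩
        show 1 / ((d 0 : ℝ) + y 0) ≤ 1
        rw [div_le_one hpos]
        linarith [(hy1 0).1]
      | succ i => exact hy1 i
    · intro i hi
      cases i with
      | zero =>
        show 1 / ((d 0 : ℝ) + y 0) * ((d 0 : ℝ) + y 0) = 1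
        field_simp
      | succ i =>
        exact hy2 i (by omega)

lemma exists_tail_seq (d : ℕ → ℕ) (hd : ∀ n, 2 ≤ d n) :
    ∃ y : ℕ → ℝ, ∀ n, y n ∈ Set.Ioo (0 : ℝ) 1 ∧ y n = 1 / ((d n : ℝ) + y (n + 1)) := by
  let K : ℕ → Set (ℕ → ℝ) := fun N =>
    (Set.univ.pi fun _ => Set.Icc (0 : ℝ) 1) ∩ {y | ∀ i < N, y i * ((d i : ℝ) + y (i + 1)) = 1}
  have hc0 : IsCompact (Set.univ.pi fun _ : ℕ => Set.Icc (0 : ℝ) 1) :=
    isCompact_univ_pi fun _ => isCompact_Icc
  have hcl2 : ∀ N : ℕ, IsClosed {y : ℕ → ℝ | ∀ i < N, y i * ((d i : ℝ) + y (i + 1)) = 1} := by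
    intro N
    have : {y : ℕ → ℝ | ∀ i < N, y i * ((d i : ℝ) + y (i + 1)) = 1}
        = ⋂ i, ⋂ (_ : i < N), {y : ℕ → ℝ | y i * ((d i : ℝ) + y (i + 1)) = 1} := by
      ext y; simp
    rw [this]
    refine isClosed_iInter fun i => isClosed_iInter fun _ => ?_
    exact isClosed_eq (by fun_prop) (by fun_prop)
  have hcl : ∀ N, IsClosed (K N) := fun N => hc0.isClosed.inter (hcl2 N)
  have hne : ∀ N, (K N).Nonempty := by
    intro N
    obtain ⟨y, h1, h2⟩ := exists_tail_seq_fin N d hd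
    exact ⟨y, fun i _ => h1 i, h2⟩
  have hsub : ∀ N, K (N + 1) ⊆ K N := fun N y hy => ⟨hy.1, fun i hi => hy.2 i (by omega)⟩
  obtain ⟨y, hy⟩ := IsCompact.nonempty_iInter_of_sequence_nonempty_isCompact_isClosed K hsub hne
    (hc0.of_isClosed_subset (hcl 0) (fun y hy => hy.1)) hcl
  rw [Set.mem_iInter] at hy
  have h01 : ∀ i, y i ∈ Set.Icc (0 : ℝ) 1 := by
    intro i
    exact (hy 0).1 i (Set.mem_univ i)
  have heq : ∀ i, y i = 1 / ((d i : ℝ) + y (i + 1)) := by
    intro i
    have h1 := (hy (i + 1)).2 i (by omega)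
    have h2 : (2 : ℝ) ≤ d i := by exact_mod_cast hd i
    have h3 := (h01 (i + 1)).1
    rw [eq_div_iff (by linarith)]
    exact h1
  refine ⟨y, fun n => ⟨?_, heq n⟩⟩
  have h2 : (2 : ℝ) ≤ d n := by exact_mod_cast hd n
  have h3 := (h01 (n + 1)).1
  rw [heq n]
  refine ⟨by positivity, ?_⟩
  rw [div_lt_one (by linarith)]
  linarith

/-- A sequence of tails with digits tending to infinity gives a member of `G`. -/
lemma inG_of_seq {z : ℕ → ℝ} {e : ℕ → ℕ} (h01 : ∀ n, z n ∈ Set.Ioo (0 : ℝ) 1)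
    (hz : ∀ n, z n = 1 / ((e n : ℝ) + z (n + 1)))
    (he : Filter.Tendsto e Filter.atTop Filter.atTop) : InG (z 0) := by
  have hT : ∀ n, T^[n] (z 0) = z n := by
    intro n
    induction n with
    | zero => rfl
    | succ n ih =>
      rw [Function.iterate_succ_apply', ih, hz n]
      exact T_cons _ ⟨(h01 _).1.le, (h01 _).2⟩
  refine ⟨h01 0, ?_⟩
  have h1 : ∀ n, ⌊1 / (T^[n] (z 0))⌋ = (e n : ℤ) := by
    intro n
    rw [hT, hz n, one_div_one_div, Int.floor_eq_iff]
    have := h01 (n + 1)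
    constructor
    · push_cast; linarith [this.1]
    · push_cast; linarith [this.2]
  simp only [h1]
  exact tendsto_natCast_atTop_atTop.comp he

lemma InG.cf {y : ℝ} (h : InG y) {l : List ℕ} (hl : ∀ a ∈ l, 1 ≤ a) : InG (cf l y) := by
  refine ⟨cf_mem_Ioo hl h.1, ?_⟩
  rw [← Filter.tendsto_add_atTop_iff_nat l.length]
  have : ∀ n, T^[n + l.length] (Pool.Agent.H560_CF.cf l y) = T^[n] y := by
    intro n
    rw [Function.iterate_add_apply, T_iter_cf hl h.1]
  simp only [this]
  exact h.2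

lemma rat_ext (z : ℕ) : ∀ (w : ℕ) (_ : 0 < w) (_ : w < z) (l : List ℕ) (σ : ℝ) (p p' q q' : ℕ)
    (_ : IsMat l σ p p' q q') (τ : ℝ) (_ : τ = σ ∨ τ = -σ),
    ∃ (l' : List ℕ) (P P' Q Q' : ℕ), IsMat l' τ P P' Q Q' ∧ cf l' 0 = cf l ((w : ℝ) / z) := by
  induction z using Nat.strong_induction_on with
  | _ z ih =>
    intro w hw hwz l σ p p' q q' hl τ hτ
    have hza : z = w * (z / w) + z % w := (Nat.div_add_mod z w).symm
    obtain ⟨a, ha⟩ : ∃ a, a = z / w := ⟨_, rfl⟩
    obtain ⟨w', hw'⟩ : ∃ w', w' = z % w := ⟨_, rfl⟩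
    rw [← ha, ← hw'] at hza
    have hwr : (0 : ℝ) < w := by exact_mod_cast hw
    have ha1 : 1 ≤ a := by
      rw [ha]; exact (Nat.one_le_div_iff hw).mpr hwz.le
    have har : (1 : ℝ) ≤ a := by exact_mod_cast ha1
    have hw'lt : w' < w := by rw [hw']; exact Nat.mod_lt _ hw
    have hzr : (z : ℝ) = w * a + w' := by exact_mod_cast hza
    rcases Nat.eq_zero_or_pos w' with h0 | h0
    · -- `w / z = 1 / a`
      have ha2 : 2 ≤ a := by
        rw [h0] at hza
        by_contra h
        have : a = 1 := by omega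
        rw [this] at hza
        omega
      have hwz' : (w : ℝ) / z = 1 / a := by
        rw [hzr, h0]; push_cast; field_simp; ring
      rcases hτ with rfl | rfl
      · obtain ⟨b, rfl⟩ : ∃ b, a = b + 1 := ⟨a - 1, by omega⟩
        have hb : 1 ≤ b := by omega
        have h1 := (hl.snoc hb).snoc (le_refl 1)
        rw [neg_neg] at h1
        refine ⟨_, _, _, _, _, h1, ?_⟩
        rw [cf_append, cf_append, hwz']
        congr 1
        simp [cf]
      · refine ⟨_, _, _, _, _, hl.snoc ha1, ?_⟩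
        rw [cf_append, hwz']
        congr 1
        simp [cf]
    · have h1 := hl.snoc ha1
      obtain ⟨l', P, P', Q, Q', h2, h3⟩ := ih w hwz w' h0 hw'lt (l ++ [a]) (-σ) _ _ _ _ h1 τ
        (by rcases hτ with rfl | rfl
            · right; ring
            · left; rfl)
      refine ⟨l', P, P', Q, Q', h2, ?_⟩
      rw [h3, cf_append]
      congr 1
      simp only [cf]
      rw [hzr]
      field_simp

/-- The rational case. -/
theorem rat_case {x : ℝ} {l : List ℕ} {p p' q q' : ℕ} (hm : IsMat l (-1) p p' q q')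
    (hx : x = cf l 0) : ∃ g₁ g₂ : ℝ, InG g₁ ∧ InG g₂ ∧ x = g₁ + g₂ := by
  have hq1 : 1 ≤ q := hm.q_pos
  have hq1r : (1 : ℝ) ≤ q := by exact_mod_cast hq1
  have hq0 : (0 : ℝ) < q := by linarith
  have hq2 : 1 ≤ q ^ 2 := Nat.one_le_pow _ _ hq1
  have hq2r : (1 : ℝ) ≤ (q : ℝ) ^ 2 := by exact_mod_cast hq2
  -- digits of `y`
  let d : ℕ → ℕ := fun n => if Even n then n + 2 else q ^ 2 * (n + 2)
  let e : ℕ → ℕ := fun n => if n = 0 then q ^ 2 * 2 + q * q' else
    if Even n then q ^ 2 * (n + 2) else n + 2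
  have hd : ∀ n, n + 2 ≤ d n := by
    intro n
    simp only [d]
    split_ifs
    · exact le_rfl
    · nlinarith
  have hd2 : ∀ n, 2 ≤ d n := fun n => by have := hd n; omega
  obtain ⟨y, hy⟩ := exists_tail_seq d hd2
  have hyG : InG (y 0) := inG_of_seq (fun n => (hy n).1) (fun n => (hy n).2)
    (Filter.tendsto_atTop_mono (f := fun n => n) (fun n => le_trans (by omega) (hd n))
      Filter.tendsto_id)
  have hsub := hm.cf_sub (y := y 0) (hy 0).1.1.le
  have hy0 := (hy 0).1.1
  obtain ⟨g2, hg2⟩ : ∃ g2, g2 = y 0 / ((q : ℝ) * (q + q' * y 0)) := ⟨_, rfl⟩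
  -- tails of `g2`
  let z : ℕ → ℝ := fun n => if n = 0 then g2 else
    if Even n then y n / (q : ℝ) ^ 2 else (q : ℝ) ^ 2 * y n
  have hy1lt : ∀ n, ¬ Even n → (q : ℝ) ^ 2 * y n < 1 := by
    intro n hn
    have h1 := (hy n).2
    have h2 : d n = q ^ 2 * (n + 2) := by simp only [d, if_neg hn]
    have h3 := (hy (n + 1)).1.1
    rw [h1, h2]
    push_cast
    rw [mul_one_div, div_lt_one (by positivity)]
    have h4 : (0 : ℝ) ≤ (q : ℝ) ^ 2 * (n + 1) := by positivity
    nlinarith
  have hz01 : ∀ n, z n ∈ Set.Ioo (0 : ℝ) 1 := by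
    intro n
    have hyn := (hy n).1
    simp only [z]
    split_ifs with h1 h2
    · rw [hg2]
      refine ⟨by positivity, ?_⟩
      rw [div_lt_one (by positivity)]
      have h5 : (1 : ℝ) * 1 ≤ q * q := mul_le_mul hq1r hq1r (by norm_num) hq0.le
      have h6 : (0 : ℝ) ≤ q * (q' * y 0) := by positivity
      nlinarith [(hy 0).1.2]
    · refine ⟨div_pos hyn.1 (by positivity), ?_⟩
      rw [div_lt_one (by positivity)]
      linarith [hyn.2]
    · exact ⟨mul_pos (by positivity) hyn.1, hy1lt n h2⟩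
  have hz : ∀ n, z n = 1 / ((e n : ℝ) + z (n + 1)) := by
    intro n
    have hyn := (hy n).1
    have hyn1 := (hy (n + 1)).1
    have hyeq := (hy n).2
    rcases Nat.eq_zero_or_pos n with h0 | h0
    · subst h0
      have e0 : e 0 = q ^ 2 * 2 + q * q' := by simp [e]
      have z0 : z 0 = g2 := by simp [z]
      have z1 : z (0 + 1) = (q : ℝ) ^ 2 * y 1 := by simp [z]
      have d0 : d 0 = 2 := by simp [d]
      rw [e0, z0, z1, hg2]
      rw [d0] at hyeq
      simp only [zero_add] at hyeq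
      have h1 : 1 / y 0 = 2 + y 1 := by rw [hyeq]; push_cast; rw [one_div_one_div]
      have h2 : y 0 * (2 + y 1) = 1 := by rw [← h1]; field_simp
      have h3 := (hy 1).1.1
      have h4 : (0 : ℝ) < q + q' * y 0 := by positivity
      push_cast
      rw [div_eq_div_iff (by positivity) (by positivity)]
      calc y 0 * ((q : ℝ) ^ 2 * 2 + q * q' + (q : ℝ) ^ 2 * y 1)
          = (q : ℝ) ^ 2 * (y 0 * (2 + y 1)) + q * q' * y 0 := by ring
        _ = 1 * (q * (q + q' * y 0)) := by rw [h2]; ring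
    · have hn0 : n ≠ 0 := by omega
      have hn1 : n + 1 ≠ 0 := by omega
      by_cases hev : Even n
      · have hod : ¬ Even (n + 1) := by
          rw [Nat.even_add_one]; simpa using hev
        have e0 : e n = q ^ 2 * (n + 2) := by simp [e, hn0, hev]
        have z0 : z n = y n / (q : ℝ) ^ 2 := by simp [z, hn0, hev]
        have z1 : z (n + 1) = (q : ℝ) ^ 2 * y (n + 1) := by simp only [z, if_neg hn1, if_neg hod]
        have d0 : d n = n + 2 := by simp [d, hev]
        rw [e0, z0, z1]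
        rw [hyeq, d0]
        push_cast
        have h3 := hyn1.1
        field_simp
      · have hod : Even (n + 1) := by
          rw [Nat.even_add_one]; exact hev
        have e0 : e n = n + 2 := by simp [e, hn0, hev]
        have z0 : z n = (q : ℝ) ^ 2 * y n := by simp [z, hn0, hev]
        have z1 : z (n + 1) = y (n + 1) / (q : ℝ) ^ 2 := by simp only [z, if_neg hn1, if_pos hod]
        have d0 : d n = q ^ 2 * (n + 2) := by simp [d, hev]
        rw [e0, z0, z1]
        rw [hyeq, d0]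
        push_cast
        have h3 := hyn1.1
        field_simp
  have he : Filter.Tendsto e Filter.atTop Filter.atTop := by
    apply Filter.tendsto_atTop_mono (f := fun n => n) _ Filter.tendsto_id
    intro n
    simp only [e]
    split_ifs with h1 h2
    · omega
    · nlinarith
    · omega
  have hg2G : InG g2 := by
    have := inG_of_seq hz01 hz he
    simpa [z] using this
  refine ⟨cf l (y 0), g2, hyG.cf hm.dig, hg2G, ?_⟩
  rw [hx, hm.cf_zero, hg2]
  linarith

theorem main (x : ℝ) (hx0 : 0 < x) (hx1 : x ≤ 1) :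
    ∃ g₁ g₂ : ℝ, InG g₁ ∧ InG g₂ ∧ x = g₁ + g₂ := by
  by_cases hirr : Irrational x
  · refine irr_case hirr ⟨hx0, lt_of_le_of_ne hx1 ?_⟩
    intro h
    rw [h] at hirr
    exact not_irrational_one hirr
  · rw [irrational_iff_ne_rational] at hirr
    push Not at hirr
    obtain ⟨u, v, hv, huv⟩ := hirr
    rcases lt_or_eq_of_le hx1 with h1 | h1
    · -- write `x` as a ratio of naturals
      obtain ⟨U, V, hU, hUV, hxUV⟩ : ∃ U V : ℕ, 0 < U ∧ U < V ∧ x = (U : ℝ) / V := by
        refine ⟨u.natAbs, v.natAbs, ?_, ?_, ?_⟩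
        · rw [Int.natAbs_pos]
          rintro rfl
          simp at huv
          linarith
        · have hvr : (0 : ℝ) < |(v : ℝ)| := by
            rw [abs_pos]; exact_mod_cast hv
          have hxa : x = |(u : ℝ)| / |(v : ℝ)| := by
            rw [← abs_div, ← huv, abs_of_pos hx0]
          rw [hxa, div_lt_one hvr] at h1
          have : (u.natAbs : ℝ) < (v.natAbs : ℝ) := by
            rw [Nat.cast_natAbs, Nat.cast_natAbs]
            push_cast
            exact h1
          exact_mod_cast this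
        · have hxa : x = |(u : ℝ)| / |(v : ℝ)| := by
            rw [← abs_div, ← huv, abs_of_pos hx0]
          rw [Nat.cast_natAbs, Nat.cast_natAbs]
          push_cast
          exact hxa
      obtain ⟨l', P, P', Q, Q', hm, hl'⟩ := rat_ext V U hU hUV [] 1 0 1 1 0 isMat_nil (-1)
        (Or.inr rfl)
      exact rat_case hm (by rw [hl', hxUV]; rfl)
    · have hm := isMat_nil.snoc (le_refl 1)
      exact rat_case hm (by rw [h1]; simp [cf])

end Pool.Agent.H560_CF
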