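import Pool.Agent.H560_CF.Basic
import Pool.Agent.H560_CF.Ineq

set_option autoImplicit false

namespace Pool.Agent.H560_CF

lemma step_id {k : List ℕ} {σ : ℝ} {P P' Q Q' : ℕ} (h : IsMat k σ P P' Q Q') {b : ℕ}
    (hb : 1 ≤ b) {z δ : ℝ} (hz : z = (P : ℝ) / Q + σ * δ) :
    z = ((P * b + P' : ℕ) : ℝ) / ((Q * b + Q' : ℕ) : ℝ)
      + σ * (δ - 1 / (Q * ((Q * b + Q' : ℕ) : ℝ))) := by
  have hq : (1 : ℝ) ≤ Q := by exact_mod_cast h.q_pos
  have hb' : (1 : ℝ) ≤ b := by exact_mod_cast hb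
  have hq' : (0 : ℝ) ≤ Q' := by positivity
  have hq0 : (0 : ℝ) < Q := by linarith
  have h2 : (0 : ℝ) < ((Q * b + Q' : ℕ) : ℝ) := by push_cast; positivity
  rw [hz, ← h.det]
  push_cast at h2 ⊢
  field_simp
  ring

/-- one step of the expansion: the floor and the ceiling digit. -/
lemma step {k : List ℕ} {σ : ℝ} {P P' Q Q' : ℕ} (h : IsMat k σ P P' Q Q')
    {z δ : ℝ} (hz : z = (P : ℝ) / Q + σ * δ) (hirr : Irrational z) (hδ : 0 < δ) {S : ℝ}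
    (hS : S = 1 / (δ * (Q : ℝ) ^ 2)) (hS3 : 3 ≤ S) :
    ∃ b : ℕ, 1 ≤ b ∧ S - 2 ≤ b ∧ ∃ ε : ℝ, 0 < ε ∧ ε < 1 ∧
      ((Q * b + Q' : ℕ) : ℝ) = Q * (S - ε) ∧
      ((Q * (b + 1) + Q' : ℕ) : ℝ) = Q * (S + (1 - ε)) ∧
      z = ((P * b + P' : ℕ) : ℝ) / ((Q * b + Q' : ℕ) : ℝ)
        + (-σ) * (ε / ((Q : ℝ) ^ 2 * S * (S - ε))) ∧
      z = ((P * (b + 1) + P' : ℕ) : ℝ) / ((Q * (b + 1) + Q' : ℕ) : ℝ)
        + σ * ((1 - ε) / ((Q : ℝ) ^ 2 * S * (S + (1 - ε)))) := by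
  have hq : (1 : ℝ) ≤ Q := by exact_mod_cast h.q_pos
  have hq' : (0 : ℝ) ≤ Q' := by positivity
  have hq0 : (0 : ℝ) < Q := by linarith
  have hqle : (Q' : ℝ) ≤ Q := by exact_mod_cast h.q'_le
  have hS0 : 0 < S := by linarith
  set t : ℝ := S - Q' / Q with ht
  have hr1 : (Q' : ℝ) / Q ≤ 1 := by rw [div_le_one hq0]; exact hqle
  have hr0 : (0 : ℝ) ≤ (Q' : ℝ) / Q := by positivity
  have ht2 : 2 ≤ t := by linarith
  set b : ℕ := ⌊t⌋₊ with hbdef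
  have hbt : (b : ℝ) ≤ t := Nat.floor_le (by linarith)
  have hbt' : t < b + 1 := Nat.lt_floor_add_one t
  have hb1 : 1 ≤ b := by
    have : (1 : ℝ) < b + 1 := by linarith
    have h3 : (0 : ℝ) < b := by linarith
    have : 0 < b := by exact_mod_cast h3
    omega
  have hδS : δ = 1 / ((Q : ℝ) ^ 2 * S) := by
    rw [hS]; field_simp
  -- the two new denominators
  have hQ1 : ((Q * b + Q' : ℕ) : ℝ) = Q * (S - (t - b)) := by
    push_cast
    rw [ht]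
    field_simp
    ring
  have hQ2 : ((Q * (b + 1) + Q' : ℕ) : ℝ) = Q * (S + (1 - (t - b))) := by
    push_cast
    rw [ht]
    field_simp
    ring
  have hzb := step_id h hb1 hz
  have hzb1 := step_id h (b := b + 1) (by omega) hz
  have hSe : 0 < S - (t - b) := by linarith
  have hSe' : 0 < S + (1 - (t - b)) := by linarith
  have e1 : δ - 1 / (Q * ((Q * b + Q' : ℕ) : ℝ)) = -((t - b) / ((Q : ℝ) ^ 2 * S * (S - (t - b)))) := by
    rw [hQ1, hδS]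
    field_simp
    ring
  have e2 : δ - 1 / (Q * ((Q * (b + 1) + Q' : ℕ) : ℝ))
      = ((1 - (t - b)) / ((Q : ℝ) ^ 2 * S * (S + (1 - (t - b))))) := by
    rw [hQ2, hδS]
    field_simp
    ring
  rw [e1] at hzb
  rw [e2] at hzb1
  refine ⟨b, hb1, by linarith, t - b, ?_, by linarith, hQ1, hQ2, ?_, hzb1⟩
  · rcases lt_or_eq_of_le (sub_nonneg.mpr hbt) with h0 | h0
    · exact h0
    · exfalso
      rw [← h0] at hzb
      simp only [zero_div, neg_zero, mul_zero, add_zero] at hzb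
      apply hirr
      refine ⟨((P * b + P' : ℕ) : ℚ) / ((Q * b + Q' : ℕ) : ℚ), ?_⟩
      rw [hzb]
      push_cast
      rfl
  · rw [hzb]; ring

/-- The state of the construction: `l` is the expansion with the larger denominator. -/
def Good (x r : ℝ) (l k : List ℕ) : Prop :=
  ∃ (σ : ℝ) (p p' q q' P P' Q Q' : ℕ) (δ : ℝ), IsMat l σ p p' q q' ∧ IsMat k σ P P' Q Q' ∧
    x = (p : ℝ) / q + (P : ℝ) / Q + σ * δ ∧ 0 < δ ∧ δ * (q : ℝ) ^ 2 < 1 ∧ r * Q ≤ q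

lemma macro_step {x r : ℝ} (hx : Irrational x) (hr : 20 ≤ r) {l k : List ℕ} (h : Good x r l k) :
    ∃ s t : List ℕ, t ≠ [] ∧ (∀ a ∈ s, r / 4 - 2 ≤ (a : ℝ)) ∧ (∀ a ∈ t, r / 4 - 2 ≤ (a : ℝ)) ∧
      ((s ≠ [] ∧ Good x (r + 1) (l ++ s) (k ++ t)) ∨ (s = [] ∧ Good x (r + 1) (k ++ t) l)) := by
  obtain ⟨σ, p, p', q, q', P, P', Q, Q', δ, hl, hk, hxe, hδ, hδq, hrq⟩ := h
  have hQ1 : (1 : ℝ) ≤ Q := by exact_mod_cast hk.q_pos
  have hQ0 : (0 : ℝ) < Q := by linarith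
  have hq1 : (1 : ℝ) ≤ q := by exact_mod_cast hl.q_pos
  have hq0 : (0 : ℝ) < q := by linarith
  have hr0 : 0 < r := by linarith
  -- first step on `k`
  obtain ⟨S, hS⟩ : ∃ S : ℝ, S = 1 / (δ * (Q : ℝ) ^ 2) := ⟨_, rfl⟩
  have hS_lb : (q : ℝ) ^ 2 / (Q : ℝ) ^ 2 ≤ S := by
    rw [hS, div_le_div_iff₀ (by positivity) (by positivity)]
    have h1 := mul_le_mul_of_nonneg_right hδq.le (by positivity : (0 : ℝ) ≤ (Q : ℝ) ^ 2)
    calc (q : ℝ) ^ 2 * (δ * (Q : ℝ) ^ 2) = δ * (q : ℝ) ^ 2 * (Q : ℝ) ^ 2 := by ring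
      _ ≤ 1 * (Q : ℝ) ^ 2 := h1
  have hrr : r ^ 2 ≤ (q : ℝ) ^ 2 / (Q : ℝ) ^ 2 := by
    rw [le_div_iff₀ (by positivity), ← mul_pow]
    exact pow_le_pow_left₀ (by positivity) hrq 2
  have hSr : r ^ 2 ≤ S := le_trans hrr hS_lb
  have hr2 : 20 * r ≤ r ^ 2 := by
    have := mul_le_mul_of_nonneg_right hr hr0.le
    calc 20 * r ≤ r * r := this
      _ = r ^ 2 := by ring
  have hS3 : 400 ≤ S := by linarith
  have hSqQ : (q : ℝ) ^ 2 ≤ S * (Q : ℝ) ^ 2 := by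
    rwa [div_le_iff₀ (by positivity)] at hS_lb
  have hz : x - (p : ℝ) / q = (P : ℝ) / Q + σ * δ := by rw [hxe]; ring
  have hzirr : Irrational (x - (p : ℝ) / q) := by
    have := hx.sub_ratCast ((p : ℚ) / (q : ℚ))
    push_cast at this
    exact this
  obtain ⟨b, hb1, hbS, ε, hε0, hε1, hQb, hQb1, hzb, hzb1⟩ :=
    step hk hz hzirr hδ hS (by linarith)
  have hSe : 0 < S - ε := by linarith
  by_cases hcase : ε < 4 / r
  · -- two steps on `k`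
    have hk1 := hk.snoc hb1
    obtain ⟨δ1, hδ1⟩ : ∃ δ1 : ℝ, δ1 = ε / ((Q : ℝ) ^ 2 * S * (S - ε)) := ⟨_, rfl⟩
    rw [← hδ1] at hzb
    have hδ1pos : 0 < δ1 := by rw [hδ1]; positivity
    obtain ⟨S1, hS1⟩ : ∃ S1 : ℝ, S1 = 1 / (δ1 * ((Q * b + Q' : ℕ) : ℝ) ^ 2) := ⟨_, rfl⟩
    have hS1e : S1 = S / (ε * (S - ε)) := by
      rw [hS1, hQb, hδ1]; field_simp
    have hεinv : 1 / ε ≤ S1 := by
      rw [hS1e, div_le_div_iff₀ hε0 (by positivity)]
      have : 0 < ε * ε := by positivity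
      calc 1 * (ε * (S - ε)) = S * ε - ε * ε := by ring
        _ ≤ S * ε := by linarith
    have hr4 : r / 4 < 1 / ε := by
      rw [lt_div_iff₀ hε0]
      rw [lt_div_iff₀ hr0] at hcase
      linarith
    obtain ⟨b2, hb21, hb2S, ε2, hε20, hε21, hQb2, -, hzb2, -⟩ :=
      step hk1 hzb hzirr hδ1pos hS1 (by linarith)
    have hk2 := hk1.snoc hb21
    rw [neg_neg] at hk2 hzb2
    have hS1e2 : 0 < S1 - ε2 := by linarith
    have hS10 : 0 < S1 := by linarith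
    have hQbpos : (0 : ℝ) < ((Q * b + Q' : ℕ) : ℝ) := by rw [hQb]; positivity
    have hkk : k ++ [b, b2] = (k ++ [b]) ++ [b2] := by simp
    refine ⟨[], [b, b2], by simp, by simp, ?_, Or.inr ⟨rfl, ?_⟩⟩
    · intro a ha
      simp only [List.mem_cons, List.not_mem_nil, or_false] at ha
      rcases ha with rfl | rfl
      · linarith
      · linarith
    · rw [hkk]
      refine ⟨σ, (P * b + P') * b2 + P, P * b + P', (Q * b + Q') * b2 + Q, Q * b + Q',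
        p, p', q, q', ε2 / (((Q * b + Q' : ℕ) : ℝ) ^ 2 * S1 * (S1 - ε2)),
        hk2, hl, ?_, ?_, ?_, ?_⟩
      · linarith
      · positivity
      · rw [hQb2]
        have : ε2 / (((Q * b + Q' : ℕ) : ℝ) ^ 2 * S1 * (S1 - ε2)) * (((Q * b + Q' : ℕ) : ℝ) * (S1 - ε2)) ^ 2
            = ε2 * (S1 - ε2) / S1 := by
          field_simp
        rw [this]
        exact ineq_c hε20 hε21 (by linarith)
      · -- ratio
        rw [hQb2, hQb]
        exact ineq_a hQ0 hq0 hr hrq hSqQ hε1 hSe (by linarith)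
  · -- one step on each
    push Not at hcase
    have hb1' : 1 ≤ b + 1 := by omega
    have hk1 := hk.snoc hb1'
    obtain ⟨c, hc⟩ : ∃ c : ℝ, c = 1 - ε := ⟨_, rfl⟩
    rw [← hc] at hzb1 hQb1
    have hc0 : 0 < c := by linarith
    have hc1 : c ≤ 1 - 4 / r := by linarith
    have hSc : 0 < S + c := by linarith
    have hS0 : 0 < S := by linarith
    obtain ⟨δ1, hδ1⟩ : ∃ δ1 : ℝ, δ1 = c / ((Q : ℝ) ^ 2 * S * (S + c)) := ⟨_, rfl⟩
    rw [← hδ1] at hzb1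
    have hδ1pos : 0 < δ1 := by rw [hδ1]; positivity
    have hz1 : x - ((P * (b + 1) + P' : ℕ) : ℝ) / ((Q * (b + 1) + Q' : ℕ) : ℝ)
        = (p : ℝ) / q + σ * δ1 := by linarith
    have hz1irr : Irrational (x - ((P * (b + 1) + P' : ℕ) : ℝ) / ((Q * (b + 1) + Q' : ℕ) : ℝ)) := by
      have := hx.sub_ratCast (((P * (b + 1) + P' : ℕ) : ℚ) / ((Q * (b + 1) + Q' : ℕ) : ℚ))
      push_cast at this ⊢
      exact this
    obtain ⟨S1, hS1⟩ : ∃ S1 : ℝ, S1 = 1 / (δ1 * (q : ℝ) ^ 2) := ⟨_, rfl⟩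
    have hS1e : S1 = (Q : ℝ) ^ 2 * S * (S + c) / (c * (q : ℝ) ^ 2) := by
      rw [hS1, hδ1]; field_simp
    have hS1c : S1 * (c * (q : ℝ) ^ 2) = (Q : ℝ) ^ 2 * S * (S + c) := by
      rw [hS1e]; field_simp
    have hS10 : 0 < S1 := by rw [hS1]; positivity
    -- S ≤ S1
    have hS1S : S + c ≤ S1 * c := by
      have h1 : (q : ℝ) ^ 2 * (S + c) ≤ (S * (Q : ℝ) ^ 2) * (S + c) :=
        mul_le_mul_of_nonneg_right hSqQ hSc.le
      have h2 : (S + c) * (q : ℝ) ^ 2 ≤ (S1 * c) * (q : ℝ) ^ 2 := by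
        calc (S + c) * (q : ℝ) ^ 2 = (q : ℝ) ^ 2 * (S + c) := by ring
          _ ≤ (S * (Q : ℝ) ^ 2) * (S + c) := h1
          _ = (Q : ℝ) ^ 2 * S * (S + c) := by ring
          _ = S1 * (c * (q : ℝ) ^ 2) := hS1c.symm
          _ = _ := by ring
      exact le_of_mul_le_mul_right h2 (by positivity)
    have hc1' : c < 1 := by linarith
    have hS1S' : S ≤ S1 := by
      have h1 : S1 * c ≤ S1 * 1 := mul_le_mul_of_nonneg_left hc1'.le hS10.le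
      linarith
    obtain ⟨a, ha1, haS, ε2, hε20, hε21, hqa, -, hza, -⟩ :=
      step hl hz1 hz1irr hδ1pos hS1 (by linarith)
    have hl1 := hl.snoc ha1
    have hS1e2 : 0 < S1 - ε2 := by linarith
    refine ⟨[a], [b + 1], by simp, ?_, ?_, Or.inl ⟨by simp, ?_⟩⟩
    · intro a' ha'
      rw [List.mem_singleton] at ha'
      rw [ha']
      linarith
    · intro a' ha'
      rw [List.mem_singleton] at ha'
      rw [ha']
      push_cast
      linarith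
    · refine ⟨-σ, p * a + p', p, q * a + q', q, P * (b + 1) + P', P, Q * (b + 1) + Q', Q,
        ε2 / ((q : ℝ) ^ 2 * S1 * (S1 - ε2)), hl1, hk1, ?_, ?_, ?_, ?_⟩
      · linarith
      · positivity
      · rw [hqa]
        have : ε2 / ((q : ℝ) ^ 2 * S1 * (S1 - ε2)) * ((q : ℝ) * (S1 - ε2)) ^ 2
            = ε2 * (S1 - ε2) / S1 := by
          field_simp
        rw [this]
        exact ineq_c hε20 hε21 (by linarith)
      · rw [hqa, hQb1]
        exact ineq_b hQ0 hq0 hr hrq hSqQ hc0 hc1 hS0 hε21 hS1c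

end Pool.Agent.H560_CF
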